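import Mathlib

namespace Pool.Agent.Results.MP_f16d24_co.Regular

open Filter

theorem corner {κ : Type} [Finite κ] [DecidableEq κ] (n : ℕ) : ∀ T : Finset κ, T.card ≤ n →
    ∀ c : ℚ × ℚ → κ, (∀ p, c p ∈ T) →
      ∃ x y d : ℚ, d ≠ 0 ∧ c (x, y) = c (x + d, y) ∧ c (x, y) = c (x, y + 1 / d) := by
  induction n with
  | zero =>
    intro T hT c hc
    have := hc 0
    rw [Finset.card_eq_zero.1 (Nat.le_zero.1 hT)] at this
    simp at this
  | succ n ih =>
    intro T hT c hc
    by_contra hno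
    have h1 : ∀ S : Finset (ℚ × ℚ), ∃ (i : κ) (e : ℚ × ℚ → κ), i ∈ T ∧ (∀ p, e p ∈ T) ∧
        (∀ p ∈ S, e p ≠ i) ∧ ∀ x y d : ℚ, d ≠ 0 →
          ¬ (e (x, y) = e (x + d, y) ∧ e (x, y) = e (x, y + 1 / d)) := fun S => by
      obtain ⟨R, hR⟩ := (S.image fun p => -p.2).bddAbove
      have hR' : ∀ p ∈ S, p.2 + (R + 1) ≠ 0 := fun p hp => by
        have : -p.2 ≤ R := hR (by simpa using ⟨p.1, by simpa using hp⟩)
        linarith
      obtain ⟨a, ha, b, i, hi⟩ := Combinatorics.exists_mono_homothetic_copy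
        (insert 0 (S.image (fun p => p.1) ∪ S.image fun p => p.1 + 1 / (p.2 + (R + 1))))
        (fun x : ℚ => c (x, 0))
      have ha' : (a : ℚ) ≠ 0 := by positivity
      refine ⟨i, fun p => c (a * p.1 + b, (p.2 + (R + 1)) / a), ?_, fun p => hc _,
        fun p hp h => hno ?_, fun x y d hd h => hno ?_⟩
      · rw [← hi 0 (Finset.mem_insert_self _ _)]; exact hc _
      · have e1 := hi p.1 (Finset.mem_insert_of_mem
          (Finset.mem_union_left _ (Finset.mem_image_of_mem _ hp)))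
        have e2 := hi _ (Finset.mem_insert_of_mem (Finset.mem_union_right _
          (Finset.mem_image_of_mem (fun p => p.1 + 1 / (p.2 + (R + 1))) hp)))
        have := hR' p hp
        simp only [nsmul_eq_mul] at e1 e2
        refine ⟨a * p.1 + b, 0, a / (p.2 + (R + 1)), by positivity, ?_, ?_⟩
        · rw [e1, ← e2]; congr 2; ring
        · rw [e1, ← h]; congr 2; field_simp; ring
      · refine ⟨a * x + b, (y + (R + 1)) / a, a * d, by positivity, h.1.trans ?_, h.2.trans ?_⟩
        · congr 2; ring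
        · congr 2; field_simp; ring
    choose i e hi he hav hpat using h1
    let U : Ultrafilter (Finset (ℚ × ℚ)) := Ultrafilter.of atTop
    have lim : ∀ f : Finset (ℚ × ℚ) → κ, ∃ k, ∀ᶠ S in U, f S = k := fun f => by
      obtain ⟨k, hk⟩ := (U.map f).eq_pure_of_finite
      have : {k} ∈ U.map f := by rw [hk]; exact Set.mem_singleton k
      exact ⟨k, this⟩
    obtain ⟨j, hj⟩ := lim i
    choose F hF using fun p => lim fun S => e S p
    have hjT : j ∈ T := by
      obtain ⟨S, hS⟩ := hj.exists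
      exact hS ▸ hi S
    obtain ⟨x, y, d, hd, h1, h2⟩ := ih (T.erase j)
      (by rw [Finset.card_erase_of_mem hjT]; omega) F fun p => by
        have h0 : ∀ᶠ S : Finset (ℚ × ℚ) in (U : Filter _), ({p} : Finset (ℚ × ℚ)) ≤ S :=
          (eventually_ge_atTop _).filter_mono (Ultrafilter.of_le _)
        obtain ⟨S, ⟨a1, a2⟩, a3⟩ := ((hj.and (hF p)).and h0).exists
        rw [← a1, ← a2]
        exact Finset.mem_erase.2 ⟨hav S p (a3 (Finset.mem_singleton_self p)), he S p⟩
    obtain ⟨S, ⟨a1, a2⟩, a3⟩ := (((hF (x, y)).and (hF (x + d, y))).and (hF (x, y + 1 / d))).exists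
    exact hpat S x y d hd ⟨by rw [a1, a2, h1], by rw [a1, a3, h2]⟩

theorem result : ∀ (r : ℕ) (c : ℚ → Fin r), ∃ x d : ℚ, d ≠ 0 ∧
    c x = c (x + d) ∧ c (x + d) = c (x + 1 / d) := fun r c => by
  obtain ⟨x, y, d, hd, h1, h2⟩ := corner r Finset.univ (by simp) (fun p => c (p.1 + p.2))
    fun _ => Finset.mem_univ _
  refine ⟨x + y, d, hd, h1.trans (by congr 1; ring), ?_⟩
  simp only at h1 h2
  rw [add_right_comm, ← h1, h2, add_assoc]

end Pool.Agent.Results.MP_f16d24_co.Regular
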